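import Pool.Agent.Helper46.M9.Def
import Pool.Agent.Helper46.M8.St.R2

/-!
# `M⁹` is compact
-/

open Filter Metric Module Set
open scoped Topology ContDiff Matrix Matrix.Norms.Elementwise ComplexConjugate Manifold

set_option maxSynthPendingDepth 3

namespace Pool.Agent.Helper46.M9
open Pool.Agent.Helper46.M8

theorem M9_isCompact : IsCompact M9 := by
  refine Metric.isCompact_of_isClosed_isBounded ?_ ?_
  · refine (isClosed_eq (f := fun Q : Mat => Q * Qᴴ * Q) (by fun_prop) continuous_id).inter
      (isClosed_eq (f := fun Q : Mat => (Qᴴ * Q).trace) ?_ continuous_const)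
    exact Continuous.matrix_trace (by fun_prop)
  · refine (Metric.isBounded_closedBall (x := (0 : Mat)) (r := 1)).subset fun Q hQ => ?_
    rw [mem_closedBall, dist_zero_right]
    refine (Matrix.norm_le_iff zero_le_one).mpr fun i j => ?_
    have h2 : ∑ j, ∑ i, ‖Q i j‖ ^ 2 = 1 := by
      rw [← R2_trace, hQ.2, Complex.one_re]
    have h3 : ∑ i, ‖Q i j‖ ^ 2 ≤ 1 := by
      rw [← h2]
      exact Finset.single_le_sum (f := fun j => ∑ i, ‖Q i j‖ ^ 2)
        (fun k _ => Finset.sum_nonneg fun i _ => by positivity) (Finset.mem_univ j)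
    have h4 : ‖Q i j‖ ^ 2 ≤ 1 :=
      (Finset.single_le_sum (f := fun i => ‖Q i j‖ ^ 2) (fun k _ => by positivity)
        (Finset.mem_univ i)).trans h3
    have h5 := norm_nonneg (Q i j)
    nlinarith

end Pool.Agent.Helper46.M9
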