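import Pool.Agent.Helper46.M9.Ctr
import Pool.Agent.Helper46.M8.SC.Main

/-!
# `M⁹` is simply connected
-/

open Filter Metric Module Set
open scoped Topology ContDiff Matrix Matrix.Norms.Elementwise ComplexConjugate ComplexOrder

set_option maxSynthPendingDepth 3

namespace Pool.Agent.Helper46.M9
open Pool.Agent.Helper46.M8 Pool.Agent.Helper46.M8.SC

lemma exists_par {Q : Mat} {i j : Fin 3} {σ τ : ℝ} (hσ : σ ^ 2 = 1) (hQ : Q ∈ BB i σ)
    (hQ' : Q ∈ BB j τ) : ∃ b v : C3, b i ≠ 0 ∧ b j ≠ 0 ∧ Q = Ps σ b v := by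
  have h1 := Ps_inv hσ hQ
  have hi : be i Q i ≠ 0 := by rw [be_apply_self hQ.2.1]; exact one_ne_zero
  have h0 : be i Q ≠ 0 := fun h => hi (congrFun h i)
  refine ⟨be i Q, ve i σ Q, hi, fun hj => ?_, h1.symm⟩
  have h2 := Ps_sq h0 hσ (ve i σ Q) j
  rw [h1, hj] at h2
  apply hQ'.2.1
  rw [h2]
  simp

theorem pathConnected_same (i j : Fin 3) {σ : ℝ} (hσ : σ ^ 2 = 1) :
    IsPathConnected (BB i σ ∩ BB j σ) := by
  have h : BB i σ ∩ BB j σ = (fun p : C3 × C3 => Ps σ (ex i j p.1) p.2) '' univ := by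
    ext Q
    constructor
    · rintro ⟨h1, h2⟩
      obtain ⟨b, v, hi, hj, rfl⟩ := exists_par hσ h1 h2
      obtain ⟨c, rfl⟩ := exists_ex hi hj
      exact ⟨(c, v), mem_univ _, rfl⟩
    · rintro ⟨p, -, rfl⟩
      exact ⟨Ps_mem_BB (ex_ne i j _) (ex_ne_left i j _) hσ _,
        Ps_mem_BB (ex_ne i j _) (ex_ne_right i j _) hσ _⟩
  rw [h]
  refine isPathConnected_univ.image ?_
  exact continuous_Ps σ ((continuous_ex i j).comp continuous_fst) continuous_snd
    fun p => ex_ne i j _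

/-- the real line `ℝ b`. -/
noncomputable def ln (b : C3) : Submodule ℝ C3 :=
  LinearMap.range (LinearMap.toSpanSingleton ℝ C3 b)

lemma mem_ln {b v : C3} : v ∈ ln b ↔ ∃ c : ℝ, c • b = v := by
  simp [ln, LinearMap.mem_range]

lemma ov_eq_zero_iff {b v : C3} (hb : b ≠ 0) : ov b v = 0 ↔ v ∈ ln b := by
  rw [mem_ln]
  constructor
  · intro h
    refine ⟨(star b ⬝ᵥ v).re / nn b, ?_⟩
    rw [ov, sub_eq_zero] at h
    refine Eq.trans ?_ h.symm
    ext k
    simp
  · rintro ⟨c, rfl⟩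
    have h := (nn_pos hb).ne'
    have e : (c • b : C3) = (c : ℂ) • b := by
      ext k
      simp
    rw [e, ov, dotProduct_smul, star_dot_self, smul_eq_mul, ← Complex.ofReal_mul,
      Complex.ofReal_re, mul_div_assoc, div_self h, mul_one, sub_self]

lemma isPathConnected_compl_ln (b : C3) : IsPathConnected ((ln b : Set C3)ᶜ) := by
  refine isPathConnected_compl_of_one_lt_codim ?_
  have h1 : finrank ℝ (ln b) ≤ 1 := by
    have := LinearMap.finrank_range_le (LinearMap.toSpanSingleton ℝ C3 b)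
    rwa [finrank_self] at this
  have h2 : finrank ℝ C3 = 6 := by
    rw [finrank_real_of_complex]
    simp
  have h3 := (ln b).finrank_quotient_add_finrank
  have h4 : 1 < finrank ℝ (C3 ⧸ ln b) := by omega
  exact_mod_cast Module.lt_rank_of_lt_finrank h4

lemma ov_single_ne {b : C3} {i k : Fin 3} (hi : b i ≠ 0) (hk : k ≠ i) :
    ov b (Pi.single k 1) ≠ 0 := by
  have hb : b ≠ 0 := fun h => hi (congrFun h i)
  intro h
  rw [ov_eq_zero_iff hb, mem_ln] at h
  obtain ⟨c, hc⟩ := h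
  have h1 := congrFun hc i
  rw [Pi.single_eq_of_ne hk.symm, Pi.smul_apply] at h1
  have h2 : c = 0 := (smul_eq_zero.mp h1).resolve_right hi
  rw [h2, zero_smul] at hc
  have h3 := congrFun hc k
  simp at h3

theorem pathConnected_diff (i j : Fin 3) {σ : ℝ} (hσ : σ ^ 2 = 1) :
    IsPathConnected (BB i σ ∩ BB j (-σ)) := by
  obtain ⟨k, hk⟩ : ∃ k : Fin 3, k ≠ i := ⟨i + 1, by fin_cases i <;> decide⟩
  -- membership
  have mem : ∀ {b v : C3}, b i ≠ 0 → b j ≠ 0 → ov b v ≠ 0 → Ps σ b v ∈ BB i σ ∩ BB j (-σ) := by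
    intro b v hi hj hv
    have hb : b ≠ 0 := fun h => hi (congrFun h i)
    exact ⟨Ps_mem_BB hb hi hσ v, Ps_mem_BB' hb hj hσ hv⟩
  have hB : IsPathConnected (ex i j '' univ) := isPathConnected_univ.image (continuous_ex i j)
  have h2 : IsPathConnected ((fun b => Ps σ b (Pi.single k 1)) '' (ex i j '' univ)) := by
    refine hB.image' ?_
    rw [continuousOn_iff_continuous_domRestrict]
    refine continuous_Ps (f := fun b : (ex i j '' univ) => (b : C3)) (g := fun _ => Pi.single k 1)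
      σ continuous_subtype_val continuous_const fun b => ?_
    obtain ⟨_, ⟨c, -, rfl⟩⟩ := b
    exact ex_ne i j c
  have h3 : (fun b => Ps σ b (Pi.single k 1)) '' (ex i j '' univ) ⊆ BB i σ ∩ BB j (-σ) := by
    rintro _ ⟨_, ⟨c, -, rfl⟩, rfl⟩
    exact mem (ex_ne_left i j c) (ex_ne_right i j c) (ov_single_ne (ex_ne_left i j c) hk)
  refine ⟨Ps σ (ex i j 0) (Pi.single k 1), h3 ⟨_, ⟨0, mem_univ _, rfl⟩, rfl⟩, fun {Q} hQ => ?_⟩
  obtain ⟨b, v, hi, hj, rfl⟩ := exists_par hσ hQ.1 hQ.2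
  have hb : b ≠ 0 := fun h => hi (congrFun h i)
  have hv : ov b v ≠ 0 := by
    intro h0
    apply hQ.2.2.2
    have hr : ro b v = 0 := by rw [ro, h0]; simp [nn]
    rw [Ps_tr hb, hr]
    simp only [sub_zero, add_zero, div_one, mul_one]
    linear_combination -hσ
  obtain ⟨c, hc⟩ := exists_ex hi hj
  have h4 := h2.joinedIn (Ps σ (ex i j 0) (Pi.single k 1)) ⟨_, ⟨0, mem_univ _, rfl⟩, rfl⟩
    (Ps σ b (Pi.single k 1)) ⟨b, ⟨c, mem_univ _, hc⟩, rfl⟩
  have h5 : IsPathConnected ((fun v => Ps σ b v) '' ((ln b : Set C3)ᶜ)) :=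
    (isPathConnected_compl_ln b).image
      (continuous_Ps σ continuous_const continuous_id fun _ => hb)
  have hm : ∀ {w : C3}, ov b w ≠ 0 → w ∈ ((ln b : Set C3)ᶜ) := by
    intro w hw h
    exact hw ((ov_eq_zero_iff hb).mpr h)
  have h6 := h5.joinedIn (Ps σ b (Pi.single k 1)) ⟨_, hm (ov_single_ne hi hk), rfl⟩
    (Ps σ b v) ⟨_, hm hv, rfl⟩
  have h7 : (fun v => Ps σ b v) '' ((ln b : Set C3)ᶜ) ⊆ BB i σ ∩ BB j (-σ) := by
    rintro _ ⟨w, hw, rfl⟩
    exact mem hi hj fun h => hw ((ov_eq_zero_iff hb).mp h)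
  exact (h4.mono h3).trans (h6.mono h7)

lemma pathConnected_inter (p q : Fin 3 × Bool) :
    IsPathConnected (BB p.1 (sg p.2) ∩ BB q.1 (sg q.2)) := by
  by_cases h : p.2 = q.2
  · rw [← h]
    exact pathConnected_same _ _ (sg_sq _)
  · have e : sg q.2 = -sg p.2 := by
      revert h
      cases p.2 <;> cases q.2 <;> simp [sg]
    rw [e]
    exact pathConnected_diff _ _ (sg_sq _)

/-- `M⁹` is simply connected. -/
theorem simplyConnectedSpace_M9 : SimplyConnectedSpace M9 := by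
  have hsub : ∀ p : Fin 3 × Bool, BB p.1 (sg p.2) ⊆ M9 := fun p Q h => h.1
  have him : ∀ S : Set Mat, S ⊆ M9 → (Subtype.val : M9 → Mat) '' (Subtype.val ⁻¹' S) = S := by
    intro S hS
    rw [Subtype.image_preimage_coe, inter_eq_right.mpr hS]
  refine VK.simplyConnected_of_cover
    (A := fun p : Fin 3 × Bool => (Subtype.val : M9 → Mat) ⁻¹' (BB p.1 (sg p.2))) ?_ ?_ ?_ ?_
    ⟨Ps 1 1 (Pi.single 0 1), Ps_mem (by simp) (by norm_num) _⟩ ?_
  · intro p
    have e : (Subtype.val : M9 → Mat) ⁻¹' (BB p.1 (sg p.2)) =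
        {Q : M9 | ((Q : Mat)ᴴ * (Q : Mat)) p.1 p.1 ≠ 0} ∩
        {Q : M9 | 1 + sg p.2 * (Q : Mat).trace.re ≠ 0} := by
      ext Q
      exact ⟨fun h => ⟨h.2.1, h.2.2⟩, fun h => ⟨Q.2, h.1, h.2⟩⟩
    rw [e]
    refine IsOpen.inter (isOpen_ne_fun ?_ continuous_const) (isOpen_ne_fun ?_ continuous_const)
    · have h1 : Continuous fun Q : M9 => (Q : Mat)ᴴ * (Q : Mat) := by fun_prop
      exact (continuous_apply _).comp ((continuous_apply _).comp h1)
    · have h1 : Continuous fun Q : M9 => (Q : Mat).trace :=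
        Continuous.matrix_trace continuous_subtype_val
      exact continuous_const.add (continuous_const.mul (Complex.continuous_re.comp h1))
  · intro Q
    obtain ⟨i, hi⟩ : ∃ i, ((Q : Mat)ᴴ * (Q : Mat)) i i ≠ 0 := by
      by_contra h
      push Not at h
      have h1 : ((Q : Mat)ᴴ * (Q : Mat)).trace = 0 := by
        simp only [Matrix.trace, Matrix.diag_apply]
        exact Finset.sum_eq_zero fun i _ => h i
      rw [Q.2.2] at h1
      exact one_ne_zero h1
    by_cases hs : 1 + (Q : Mat).trace.re = 0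
    · refine ⟨(i, false), Q.2, hi, ?_⟩
      simp only [sg]
      intro h
      norm_num at h
      linarith
    · refine ⟨(i, true), Q.2, hi, ?_⟩
      simpa [sg] using hs
  · intro p
    rw [← Topology.IsEmbedding.subtypeVal.isSimplyConnected_image, him _ (hsub p)]
    exact isSimplyConnected_BB p.1 (sg_sq p.2)
  · intro p q
    have h := pathConnected_inter p q
    rw [← preimage_inter, Topology.IsInducing.subtypeVal.isPathConnected_iff,
      him _ (inter_subset_left.trans (hsub p))]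
    exact h
  · rintro ⟨i, t⟩
    have hi : (1 : C3) i ≠ 0 := by simp
    have h1 : (1 : C3) ≠ 0 := fun h => hi (congrFun h i)
    cases t
    · have h2 := Ps_mem_BB' (b := 1) h1 hi (σ := 1) (by norm_num) (v := Pi.single 0 1)
        (ov_single_ne (b := (1 : C3)) (i := 1) (by simp) (by decide))
      simpa [sg] using h2
    · simpa [sg] using Ps_mem_BB (b := 1) h1 hi (σ := 1) (by norm_num) (Pi.single 0 1)

end Pool.Agent.Helper46.M9
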