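import Pool.Agent.Helper46.M9.St.Q3
import Pool.Agent.Helper46.M9.SC
import Pool.Agent.Helper46.M9.Cpt
import Pool.Agent.Helper46.M9.Gen.Cpt
import Pool.Agent.Helper46.M8.Imm
import Pool.Agent.Helper46.M8.St.A13

/-!
# The final form of the theorem on `M⁹`
-/

open Set Metric
open scoped Manifold ContDiff Matrix Matrix.Norms.Elementwise

namespace Pool.Agent.Helper46.M9
open Pool.Agent.Helper20.HP Pool.Agent.Helper20.MB Pool.Agent.Helper46.M8 Pool.Agent.Helper81.M9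

/-- the inclusion in the space of matrices. -/
def inclM9 (Q : M9) : Fin 3 → Fin 3 → ℂ := fun i j => (Q : Mat) i j

theorem M9_immersion [ChartedSpace (EuclideanSpace ℝ (Fin 9)) M9] [IsManifold (𝓡 9) ∞ M9]
    (h1 : ∀ i j, ContMDiff (𝓡 9) 𝓘(ℝ, ℂ) ∞ (fun Q : M9 => (Q : Mat) i j))
    (h2 : ∀ (p : M9) (u : TangentSpace (𝓡 9) p),
      (∀ i j, mfderiv (𝓡 9) 𝓘(ℝ, ℂ) (fun Q : M9 => (Q : Mat) i j) p u = 0) → u = 0) :
    IsSmoothImmersion (𝓡 9) inclM9 := by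
  have hs : ContMDiff (𝓡 9) 𝓘(ℝ, Fin 3 → Fin 3 → ℂ) ∞ inclM9 := by
    rw [contMDiff_pi_space]
    intro i
    rw [contMDiff_pi_space]
    intro j
    exact h1 i j
  refine ⟨hs, fun p => ?_⟩
  rw [injective_iff_map_eq_zero]
  intro u hu
  refine h2 p u fun i j => ?_
  let L : (Fin 3 → Fin 3 → ℂ) →L[ℝ] ℂ :=
    (ContinuousLinearMap.proj j : (Fin 3 → ℂ) →L[ℝ] ℂ).comp
      (ContinuousLinearMap.proj i : (Fin 3 → Fin 3 → ℂ) →L[ℝ] (Fin 3 → ℂ))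
  have hL : MDifferentiableAt 𝓘(ℝ, Fin 3 → Fin 3 → ℂ) 𝓘(ℝ, ℂ) L (inclM9 p) :=
    L.differentiableAt.mdifferentiableAt
  have e1 := mfderiv_comp (I := 𝓡 9) (I' := 𝓘(ℝ, Fin 3 → Fin 3 → ℂ)) (I'' := 𝓘(ℝ, ℂ))
    (f := inclM9) (g := L) p hL ((hs p).mdifferentiableAt (by simp))
  rw [mfderiv_eq_fderiv, L.fderiv] at e1
  have e2 := DFunLike.congr_fun e1 u
  have e3 : mfderiv (𝓡 9) 𝓘(ℝ, ℂ) (fun Q : M9 => (Q : Mat) i j) p u
      = L (mfderiv (𝓡 9) 𝓘(ℝ, Fin 3 → Fin 3 → ℂ) inclM9 p u) := e2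
  rw [e3, hu]
  exact map_zero L

variable {D : Mat → BD V Y9}

theorem M9_final_of_data (I : Inv9 D) {c₀ b : ℝ} (hc₀ : 0 < c₀)
    (HB : ∀ U : Mat, Uᴴ * U = 1 → (D U).Bdd 0 b)
    (HT : ∀ U : Mat, Uᴴ * U = 1 → (D U).TT 0 c₀) :
    ∃ (_ : ChartedSpace (EuclideanSpace ℝ (Fin 9)) M9) (_ : IsManifold (𝓡 9) ∞ M9),
    IsSmoothImmersion (𝓡 9) inclM9 ∧ AdmitsPositiveCurvature (𝓡 9) M9 := by
  obtain ⟨i1, i2, h1, h2, h3⟩ := M9_of_data I hc₀ HB HT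
  exact ⟨i1, i2, M9_immersion h1 h2, h3⟩

/-- it is enough to show the strict positivity of the expression in (T) at the origin. -/
theorem M9_final_of_TE (I : Inv9 D) (S : ∀ U : Mat, Uᴴ * U = 1 → Gen.SmF D U 0)
    (hpos : ∀ U : Mat, Uᴴ * U = 1 → ∀ (X Z : V) (y w : Y9), (D U).h 0 X X = 1 → (D U).h 0 X Z = 0 →
      kL9 0 y y = 1 → kL9 0 y w = 0 → (Z ≠ 0 ∨ w ≠ 0) → 0 < Gen.TE (D U) 0 X Z y w) :
    ∃ (_ : ChartedSpace (EuclideanSpace ℝ (Fin 9)) M9) (_ : IsManifold (𝓡 9) ∞ M9),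
    IsSmoothImmersion (𝓡 9) inclM9 ∧ AdmitsPositiveCurvature (𝓡 9) M9 := by
  obtain ⟨b, hb⟩ := Gen.Bdd_of_smooth isCompact_unitary D 0 S
  obtain ⟨c, hc, hT⟩ := Gen.TT_of_pos isCompact_unitary D 0 S
    (fun U hU X Z y w h1 h2 h3 h4 h5 => hpos U hU X Z y w h1 h2
      (by rw [← I.k U]; exact h3) (by rw [← I.k U]; exact h4) h5)
  exact M9_final_of_data I hc hb hT

end Pool.Agent.Helper46.M9
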