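import Pool.Agent.Helper81.M9.Basic
import Pool.Agent.Helper46.M8.Man
import Pool.Agent.Helper46.M8.Ns

/-!
# `M⁹` as a submanifold of the `3 × 3` matrices: definitions
-/

open Filter Metric Module Set
open scoped Topology ContDiff Matrix Matrix.Norms.Elementwise ComplexConjugate Manifold

set_option maxSynthPendingDepth 3

namespace Pool.Agent.Helper46.M9
open Pool.Agent.Helper20.PC Pool.Agent.Helper20.HP Pool.Agent.Helper20.M8 Pool.Agent.Helper20.MB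
open Pool.Agent.Helper46.M8 Pool.Agent.Helper81.M9

/-- projection to the `T`-part. -/
noncomputable abbrev pT9 : Y9 →L[ℝ] V := ContinuousLinearMap.snd ℝ ℂ V

/-- the square of the norm of a vector of the fibre. -/
noncomputable def fn9 (x : V × Y9) : ℝ :=
  x.2.1.re ^ 2 + x.2.1.im ^ 2 + h0 x.1 x.2.2 x.2.2

lemma fn9_eq (x : V × Y9) : fn9 x = kL9 x.1 x.2 x.2 := by
  rw [fn9, kL9_apply]; ring

/-- the parametrisation of `M⁹`. -/
noncomputable def Th9 (x : V × Y9) : Mat :=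
  (((Real.sqrt (fn9 x))⁻¹ : ℝ) : ℂ) •
    ((x.2.1 / (nz x.1 : ℂ)) • Matrix.vecMulVec (Zv x.1) (star (Zv x.1))
      + ((nz x.1 : ℂ) ^ 2)⁻¹ •
        Matrix.vecMulVec ((nz x.1 : ℂ) • Wv x.2.2 - hip x.1 x.2.2 • Zv x.1) (star (Zv x.1)))

noncomputable def wX9 (Q : Mat) : V := fun i =>
  ((Q - Q.trace • (Qᴴ * Q)) *ᵥ Zv (zX Q)) i.succ
    - zX Q i * ((Q - Q.trace • (Qᴴ * Q)) *ᵥ Zv (zX Q)) 0

noncomputable def Xi9 (Q : Mat) : V × Y9 := (zX Q, (Q.trace, wX9 Q))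

/-- the action on the bundle `ℂ ⊕ T`. -/
noncomputable def Phi9 (g : Mat) (x : V × Y9) : V × Y9 :=
  (mob g x.1, (x.2.1, dmob g x.1 x.2.2))

noncomputable def dPhi9 (g : Mat) (x u : V × Y9) : V × Y9 :=
  (dmob g x.1 u.1, (u.2.1, dmob g x.1 u.2.2 + ddmob g x.1 x.2.2 u.1))

/-- the parametrisations used for the metric. -/
noncomputable def ph9 (U : Mat) (x : V × Y9) : Mat := U * Th9 x * Uᴴ

noncomputable def ps9 (U : Mat) (Q : Mat) : V × Y9 := Xi9 (Uᴴ * Q * U)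

/-! ### charts -/
abbrev E9 := EuclideanSpace ℝ (Fin 9)

/-- chart data at `Q`. -/
structure CD9 (Q : Mat) where
  U : Mat
  hU : Uᴴ * U = 1
  y : Y9
  hy : kL9 0 y y = 1
  hQ : Q = U * Th9 (0, y) * Uᴴ
  j : E9 →L[ℝ] V × Y9
  t : V × Y9 →L[ℝ] E9
  tj : ∀ e, t (j e) = e
  jt : ∀ x, kL9 0 y x.2 = 0 → j (t x) = x
  lj : ∀ e, kL9 0 y (j e).2 = 0

namespace CD9
variable {Q : Mat} (D : CD9 Q)

/-- the point of `V × Y9` with coordinates `e`. -/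
noncomputable def sg (e : E9) : V × Y9 := (0, D.y) + D.j e

noncomputable def psi (e : E9) : Mat := D.U * Th9 (D.sg e) * D.Uᴴ

/-- radial projection to the slice `k(y₀, y) = 1`. -/
noncomputable def sc (x : V × Y9) : V × Y9 := (x.1, (kL9 0 D.y x.2)⁻¹ • x.2)

noncomputable def rho (P : Mat) : E9 := D.t (D.sc (Xi9 (D.Uᴴ * P * D.U)) - (0, D.y))

def O : Set Mat :=
  {P | ((D.Uᴴ * P * D.U)ᴴ * (D.Uᴴ * P * D.U)) 0 0 ≠ 0 ∧ 0 < kL9 0 D.y (Xi9 (D.Uᴴ * P * D.U)).2}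

end CD9

end Pool.Agent.Helper46.M9
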