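import Pool.Agent.Helper46.M9.Par
import Pool.Agent.Helper46.M8.SC.Ctr

/-!
# Contractible open subsets of `M⁹`
-/

open Filter Metric Module Set
open scoped Topology ContDiff Matrix Matrix.Norms.Elementwise ComplexConjugate ComplexOrder

set_option maxSynthPendingDepth 3

namespace Pool.Agent.Helper46.M9
open Pool.Agent.Helper46.M8 Pool.Agent.Helper46.M8.SC

/-- the open sets: `b i ≠ 0`, `⟨b, a⟩ ≠ -σ`. -/
def BB (i : Fin 3) (σ : ℝ) : Set Mat :=
  {Q | Q ∈ M9 ∧ (Qᴴ * Q) i i ≠ 0 ∧ 1 + σ * Q.trace.re ≠ 0}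

lemma ov_smul (b v : C3) {c : ℂ} (hc : c ≠ 0) :
    ov (c • b) ((conj c)⁻¹ • v) = (conj c)⁻¹ • ov b v := by
  have hc' : conj c ≠ 0 := by simpa using hc
  have e : ((‖c‖ ^ 2 : ℝ) : ℂ) = conj c * c := by
    rw [← Complex.normSq_eq_conj_mul_self, Complex.normSq_eq_norm_sq]
  have e1 : star (c • b) ⬝ᵥ ((conj c)⁻¹ • v) = star b ⬝ᵥ v := by
    rw [star_smul, smul_dotProduct, dotProduct_smul, Complex.star_def]
    simp only [smul_eq_mul]
    field_simp
  have key : (((star (c • b) ⬝ᵥ ((conj c)⁻¹ • v)).re / (‖c‖ ^ 2 * nn b) : ℝ) : ℂ) * c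
      = (conj c)⁻¹ * (((star b ⬝ᵥ v).re / nn b : ℝ) : ℂ) := by
    rw [e1, Complex.ofReal_div, Complex.ofReal_div, Complex.ofReal_mul, e]
    by_cases h : (nn b : ℂ) = 0
    · simp [h]
    · field_simp
  rw [ov, ov, nn_smul, smul_smul, key, smul_sub, smul_smul]

lemma ro_smul (b v : C3) {c : ℂ} (hc : c ≠ 0) :
    ro (c • b) ((conj c)⁻¹ • v) = ro b v := by
  have h1 : ‖c‖ ≠ 0 := by simpa using hc
  rw [ro, ro, ov_smul b v hc, nn_smul, nn_smul, norm_inv, Complex.norm_conj]
  field_simp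

lemma Ps_smul (σ : ℝ) (b v : C3) {c : ℂ} (hc : c ≠ 0) :
    Ps σ (c • b) ((conj c)⁻¹ • v) = Ps σ b v := by
  have hc' : conj c ≠ 0 := by simpa using hc
  have e : ((‖c‖ ^ 2 : ℝ) : ℂ) = conj c * c := by
    rw [← Complex.normSq_eq_conj_mul_self, Complex.normSq_eq_norm_sq]
  have h1 : aw σ (c • b) ((conj c)⁻¹ • v) = (conj c)⁻¹ • aw σ b v := by
    rw [aw, aw, ro_smul b v hc, ov_smul b v hc, nn_smul, smul_comm (conj c)⁻¹]
    congr 1
    rw [smul_add, smul_smul, smul_smul, smul_smul, smul_smul, mul_comm (2 : ℂ)]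
    congr 2
    rw [Complex.ofReal_div, Complex.ofReal_div, Complex.ofReal_mul (‖c‖ ^ 2), e]
    by_cases h : (nn b : ℂ) = 0
    · simp [h]
    · field_simp
  rw [Ps, Ps, h1, star_smul, Matrix.smul_vecMulVec, Matrix.vecMulVec_smul, smul_smul,
    Complex.star_def, inv_mul_cancel₀ hc', one_smul]

/-- inversion of the parametrisation for unit vectors. -/
lemma Ps_unit {a b : C3} {s σ : ℝ} (hσ : σ ^ 2 = 1) (ha : star a ⬝ᵥ a = 1)
    (hb : star b ⬝ᵥ b = 1) (hs : (star b ⬝ᵥ a).re = s) (h : 1 + σ * s ≠ 0) :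
    Ps σ b ((((1 + σ * s : ℝ) : ℂ)⁻¹) • a) = Matrix.vecMulVec a (star b) := by
  have hnb : nn b = 1 := by
    have := star_dot_self b
    rw [hb] at this
    exact_mod_cast this.symm
  have hs' : (star a ⬝ᵥ b).re = s := by
    rw [← star_dot_comm, Complex.star_def, Complex.conj_re, hs]
  have h' : (1 : ℂ) + σ * s ≠ 0 := by exact_mod_cast h
  have hou : ov b ((((1 + σ * s : ℝ) : ℂ)⁻¹) • a)
      = (((1 + σ * s : ℝ) : ℂ)⁻¹) • (a - (s : ℂ) • b) := by
    rw [ov, dotProduct_smul, hnb, smul_sub, smul_smul, smul_eq_mul, ← Complex.ofReal_inv,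
      Complex.re_ofReal_mul, hs, div_one, Complex.ofReal_mul]
  have hw : nn (a - (s : ℂ) • b) = 1 - s ^ 2 := by
    have h1 := star_dot_self (a - (s : ℂ) • b)
    simp only [star_sub, star_smul, sub_dotProduct, dotProduct_sub, smul_dotProduct,
      dotProduct_smul, ha, hb, smul_eq_mul, Complex.star_def, Complex.conj_ofReal] at h1
    have h2 := congrArg Complex.re h1
    simp only [Complex.sub_re, Complex.re_ofReal_mul, Complex.one_re, hs, hs',
      Complex.ofReal_re] at h2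
    linear_combination -h2
  have hrr : ro b ((((1 + σ * s : ℝ) : ℂ)⁻¹) • a) = (1 - σ * s) / (1 + σ * s) := by
    rw [ro, hou, nn_smul, hw, hnb, ← Complex.ofReal_inv, Complex.norm_real, Real.norm_eq_abs,
      sq_abs]
    field_simp
    linear_combination (s ^ 2) * hσ
  have h1 : 1 + ro b ((((1 + σ * s : ℝ) : ℂ)⁻¹) • a) = 2 / (1 + σ * s) := by
    rw [hrr]; field_simp; ring
  have h2 : σ * (1 - ro b ((((1 + σ * s : ℝ) : ℂ)⁻¹) • a)) / nn b = 2 * s / (1 + σ * s) := by
    rw [hrr, hnb]; field_simp; linear_combination (2 * s) * hσ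
  rw [Ps, aw, h1, h2, hou]
  congr 1
  push_cast
  ext k
  simp only [Pi.smul_apply, Pi.add_apply, Pi.sub_apply, smul_eq_mul]
  field_simp
  ring

lemma Ps_inv {Q : Mat} {i : Fin 3} {σ : ℝ} (hσ : σ ^ 2 = 1) (hQ : Q ∈ BB i σ) :
    Ps σ (be i Q) (ve i σ Q) = Q := by
  obtain ⟨hM, hi, hs⟩ := hQ
  obtain ⟨a, b, ha, hb, hba, hQ⟩ := exists_form hM
  have hH : Qᴴ * Q = Matrix.vecMulVec b (star b) := by
    rw [hQ, Matrix.conjTranspose_vecMulVec, star_star, Matrix.vecMulVec_mul_vecMulVec, ha,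
      one_smul]
  have hii : (Qᴴ * Q) i i = b i * conj (b i) := by
    rw [hH, Matrix.vecMulVec_apply]; rfl
  have hbi : b i ≠ 0 := by
    intro h0
    rw [hii, h0, zero_mul] at hi
    exact hi rfl
  have hbi' : conj (b i) ≠ 0 := by simpa using hbi
  have h1 : be i Q = (b i)⁻¹ • b := by
    rw [be, hii]
    ext k
    simp only [Pi.smul_apply, smul_eq_mul]
    rw [hH, Matrix.vecMulVec_apply, Pi.star_apply, Complex.star_def]
    field_simp
  have h2 : ve i σ Q = (conj ((b i)⁻¹))⁻¹ • ((((1 + σ * Q.trace.re : ℝ) : ℂ)⁻¹) • a) := by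
    rw [ve]
    ext k
    have h3 : Q k i = a k * conj (b i) := by
      conv_lhs => rw [hQ, Matrix.vecMulVec_apply]
      rfl
    simp only [Pi.smul_apply, smul_eq_mul]
    rw [h3, map_inv₀, inv_inv]
    ring
  have h4 : (star b ⬝ᵥ a).re = Q.trace.re := by rw [hba]
  rw [h1, h2, Ps_smul σ b _ (inv_ne_zero hbi), Ps_unit hσ ha hb h4 hs]
  exact hQ.symm

lemma Ps_mem_BB {b : C3} (hb : b ≠ 0) {i : Fin 3} (hi : b i ≠ 0) {σ : ℝ} (hσ : σ ^ 2 = 1)
    (v : C3) : Ps σ b v ∈ BB i σ := by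
  have h := ro_nonneg b v
  have hn := nn_pos hb
  refine ⟨Ps_mem hb hσ v, ?_, ?_⟩
  · rw [Ps_sq hb hσ v i, Complex.ofReal_ne_zero]
    have : 0 < ‖b i‖ := norm_pos_iff.mpr hi
    positivity
  · rw [Ps_tr hb σ v]
    have e : 1 + σ * (σ * (1 - ro b v) / (1 + ro b v)) = 2 / (1 + ro b v) := by
      have : 1 + ro b v ≠ 0 := by positivity
      field_simp
      linear_combination (1 - ro b v) * hσ
    rw [e]
    positivity

lemma Ps_mem_BB' {b : C3} (hb : b ≠ 0) {i : Fin 3} (hi : b i ≠ 0) {σ : ℝ} (hσ : σ ^ 2 = 1)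
    {v : C3} (hv : ov b v ≠ 0) : Ps σ b v ∈ BB i (-σ) := by
  have h : 0 < ro b v := mul_pos (nn_pos hv) (nn_pos hb)
  have hn := nn_pos hb
  refine ⟨Ps_mem hb hσ v, ?_, ?_⟩
  · rw [Ps_sq hb hσ v i, Complex.ofReal_ne_zero]
    have : 0 < ‖b i‖ := norm_pos_iff.mpr hi
    positivity
  · rw [Ps_tr hb σ v]
    have e : 1 + -σ * (σ * (1 - ro b v) / (1 + ro b v)) = 2 * ro b v / (1 + ro b v) := by
      have : 1 + ro b v ≠ 0 := by positivity
      field_simp
      linear_combination (-(1 - ro b v)) * hσ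
    rw [e]
    positivity

/-! ### continuity -/
lemma continuous_ov {Y : Type*} [TopologicalSpace Y] {f g : Y → C3} (hf : Continuous f)
    (hg : Continuous g) (h0 : ∀ y, f y ≠ 0) : Continuous fun y => ov (f y) (g y) := by
  unfold ov
  have h1 : Continuous fun y => (star (f y) ⬝ᵥ g y).re / nn (f y) :=
    (Complex.continuous_re.comp (continuous_dot hf hg)).div (continuous_nn.comp hf)
      fun y => (nn_pos (h0 y)).ne'
  exact hg.sub ((Complex.continuous_ofReal.comp h1).smul hf)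

lemma continuous_ro {Y : Type*} [TopologicalSpace Y] {f g : Y → C3} (hf : Continuous f)
    (hg : Continuous g) (h0 : ∀ y, f y ≠ 0) : Continuous fun y => ro (f y) (g y) :=
  (continuous_nn.comp (continuous_ov hf hg h0)).mul (continuous_nn.comp hf)

theorem continuous_Ps {Y : Type*} [TopologicalSpace Y] {f g : Y → C3} (σ : ℝ) (hf : Continuous f)
    (hg : Continuous g) (h0 : ∀ y, f y ≠ 0) : Continuous fun y => Ps σ (f y) (g y) := by
  have h1 := continuous_ro hf hg h0
  have h2 := continuous_ov hf hg h0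
  have h3 : Continuous fun y => (((1 + ro (f y) (g y) : ℝ) : ℂ)⁻¹) := by
    refine (Complex.continuous_ofReal.comp (continuous_const.add h1)).inv₀ fun y => ?_
    have := ro_nonneg (f y) (g y)
    have h4 : (1 + ro (f y) (g y) : ℝ) ≠ 0 := by positivity
    exact Complex.ofReal_ne_zero.mpr h4
  have h5 : Continuous fun y => ((σ * (1 - ro (f y) (g y)) / nn (f y) : ℝ) : ℂ) := by
    refine Complex.continuous_ofReal.comp (Continuous.div (continuous_const.mul
      (continuous_const.sub h1)) (continuous_nn.comp hf) fun y => (nn_pos (h0 y)).ne')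
  have h6 : Continuous fun y => aw σ (f y) (g y) := by
    unfold aw
    have h7 : Continuous fun y => (2 : ℂ) • ov (f y) (g y) := by fun_prop
    exact h3.smul ((h5.smul hf).add h7)
  unfold Ps
  refine continuous_pi fun i => continuous_pi fun j => ?_
  simp only [Matrix.vecMulVec_apply, Pi.star_apply, Complex.star_def]
  have h7 : Continuous fun y => aw σ (f y) (g y) i := (continuous_apply i).comp h6
  have h8 : Continuous fun y => f y j := (continuous_apply j).comp hf
  exact h7.mul (Complex.continuous_conj.comp h8)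

lemma continuous_be9 (i : Fin 3) (σ : ℝ) : Continuous fun Q : BB i σ => be i (Q : Mat) := by
  unfold be
  have h1 : Continuous fun Q : BB i σ => (Q : Mat)ᴴ * (Q : Mat) := by fun_prop
  have h2 : ∀ k l, Continuous fun Q : BB i σ => ((Q : Mat)ᴴ * (Q : Mat)) k l := fun k l =>
    (continuous_apply l).comp ((continuous_apply k).comp h1)
  exact ((h2 i i).inv₀ fun Q => Q.2.2.1).smul (continuous_pi fun k => h2 k i)

lemma continuous_ve9 (i : Fin 3) (σ : ℝ) : Continuous fun Q : BB i σ => ve i σ (Q : Mat) := by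
  unfold ve
  have h1 : Continuous fun Q : BB i σ => (Q : Mat).trace :=
    Continuous.matrix_trace continuous_subtype_val
  have h2 : Continuous fun Q : BB i σ => (((1 + σ * (Q : Mat).trace.re : ℝ) : ℂ)⁻¹) := by
    refine (Complex.continuous_ofReal.comp (continuous_const.add (continuous_const.mul
      (Complex.continuous_re.comp h1)))).inv₀ fun Q => ?_
    exact Complex.ofReal_ne_zero.mpr Q.2.2.2
  have h3 : ∀ k l, Continuous fun Q : BB i σ => (Q : Mat) k l := fun k l =>
    (continuous_apply l).comp ((continuous_apply k).comp continuous_subtype_val)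
  exact h2.smul (continuous_pi fun k => h3 k i)

/-- the sets `BB i σ` are contractible. -/
theorem contractible_BB (i : Fin 3) {σ : ℝ} (hσ : σ ^ 2 = 1) : ContractibleSpace (BB i σ) := by
  rw [contractible_iff_id_nullhomotopic]
  have hne : ∀ (t : unitInterval) (Q : BB i σ),
      ((1 - (t : ℝ) : ℝ) : ℂ) • be i (Q : Mat) + ((t : ℝ) : ℂ) • (Pi.single i 1 : C3) ≠ 0 := by
    intro t Q h0
    have h1 := congrFun h0 i
    simp only [Pi.add_apply, Pi.smul_apply, be_apply_self Q.2.2.1, Pi.single_eq_same, smul_eq_mul,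
      mul_one, Pi.zero_apply] at h1
    push_cast at h1
    rw [sub_add_cancel] at h1
    exact one_ne_zero h1
  have hi1 : ∀ (t : unitInterval) (Q : BB i σ),
      (((1 - (t : ℝ) : ℝ) : ℂ) • be i (Q : Mat) + ((t : ℝ) : ℂ) • (Pi.single i 1 : C3)) i ≠ 0 := by
    intro t Q h1
    simp only [Pi.add_apply, Pi.smul_apply, be_apply_self Q.2.2.1, Pi.single_eq_same, smul_eq_mul,
      mul_one] at h1
    push_cast at h1
    rw [sub_add_cancel] at h1
    exact one_ne_zero h1
  have he : (Pi.single i 1 : C3) ≠ 0 := by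
    intro h0
    have := congrFun h0 i
    simp at this
  have hei : (Pi.single i 1 : C3) i ≠ 0 := by simp
  refine ⟨⟨Ps σ (Pi.single i 1) 0, Ps_mem_BB he hei hσ 0⟩, ⟨⟨⟨fun p =>
    ⟨Ps σ (((1 - (p.1 : ℝ) : ℝ) : ℂ) • be i (p.2 : Mat) + ((p.1 : ℝ) : ℂ) • (Pi.single i 1 : C3))
      (((1 - (p.1 : ℝ) : ℝ) : ℂ) • ve i σ (p.2 : Mat)),
      Ps_mem_BB (hne p.1 p.2) (hi1 p.1 p.2) hσ _⟩, ?_⟩, ?_, ?_⟩⟩⟩
  · refine Continuous.subtype_mk ?_ _
    refine continuous_Ps σ ?_ ?_ fun p => hne p.1 p.2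
    · have h1 : Continuous fun p : unitInterval × BB i σ => be i (p.2 : Mat) :=
        (continuous_be9 i σ).comp continuous_snd
      fun_prop
    · have h1 : Continuous fun p : unitInterval × BB i σ => ve i σ (p.2 : Mat) :=
        (continuous_ve9 i σ).comp continuous_snd
      fun_prop
  · intro Q
    apply Subtype.ext
    simp only [ContinuousMap.coe_id, id_eq, Icc.coe_zero, sub_zero, Complex.ofReal_one, one_smul,
      Complex.ofReal_zero, zero_smul, add_zero]
    exact Ps_inv hσ Q.2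
  · intro Q
    apply Subtype.ext
    simp only [ContinuousMap.const_apply, Icc.coe_one, sub_self, Complex.ofReal_zero, zero_smul,
      Complex.ofReal_one, one_smul, zero_add]

theorem isSimplyConnected_BB (i : Fin 3) {σ : ℝ} (hσ : σ ^ 2 = 1) :
    IsSimplyConnected (BB i σ) := by
  have := contractible_BB i hσ
  exact (inferInstance : SimplyConnectedSpace (BB i σ))

end Pool.Agent.Helper46.M9
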