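import Pool.Agent.Helper46.M8.Basic

/-!
# `M⁹` : the complex `3 × 3` matrices of rank one and norm one
-/

open scoped Matrix

namespace Pool.Agent.Helper46.M9
open Pool.Agent.Helper46.M8

/-- `M⁹` : the matrices `a bᴴ` with `|a| = |b| = 1`, i.e. the matrices of rank one and norm one;
`M⁹ = (S⁵ × S⁵) / S¹`, the unit sphere bundle of `ℂ ⊕ T ℂP²`. -/
def M9 : Set Mat := {Q | Q * Qᴴ * Q = Q ∧ (Qᴴ * Q).trace = 1}

end Pool.Agent.Helper46.M9
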