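import Pool.Agent.Helper46.M9.Def
import Pool.Agent.Helper46.M8.SC.Par

/-!
# A parametrisation of `M⁹` for the topology
-/

open Filter Metric Module Set
open scoped Topology ContDiff Matrix Matrix.Norms.Elementwise ComplexConjugate ComplexOrder

set_option maxSynthPendingDepth 3

namespace Pool.Agent.Helper46.M9
open Pool.Agent.Helper46.M8 Pool.Agent.Helper46.M8.SC

/-- the part of `v` orthogonal (in the real sense) to `b`. -/
noncomputable def ov (b v : C3) : C3 := v - (((star b ⬝ᵥ v).re / nn b : ℝ) : ℂ) • b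

noncomputable def ro (b v : C3) : ℝ := nn (ov b v) * nn b

/-- the first vector. -/
noncomputable def aw (σ : ℝ) (b v : C3) : C3 :=
  (((1 + ro b v : ℝ) : ℂ)⁻¹) • (((σ * (1 - ro b v) / nn b : ℝ) : ℂ) • b + (2 : ℂ) • ov b v)

noncomputable def Ps (σ : ℝ) (b v : C3) : Mat := Matrix.vecMulVec (aw σ b v) (star b)

lemma dot_ov {b : C3} (hb : b ≠ 0) (v : C3) : (star b ⬝ᵥ ov b v).re = 0 := by
  have h := (nn_pos hb).ne'
  rw [ov, dotProduct_sub, dotProduct_smul, star_dot_self, smul_eq_mul, ← Complex.ofReal_mul,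
    Complex.sub_re, Complex.ofReal_re]
  field_simp
  ring

/-- the complex number `⟨b, ov b v⟩`, purely imaginary. -/
lemma dot_ov' {b : C3} (hb : b ≠ 0) (v : C3) :
    star (ov b v) ⬝ᵥ b = - (star b ⬝ᵥ ov b v) := by
  rw [← star_dot_comm]
  apply Complex.ext
  · simp [dot_ov hb v]
  · simp

lemma ro_nonneg (b v : C3) : 0 ≤ ro b v := mul_nonneg (nn_nonneg _) (nn_nonneg _)

lemma re_dot_aw {b : C3} (hb : b ≠ 0) (σ : ℝ) (v : C3) :
    (star b ⬝ᵥ aw σ b v).re = σ * (1 - ro b v) / (1 + ro b v) := by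
  have h := (nn_pos hb).ne'
  have h2 : 1 + ro b v ≠ 0 := by have := ro_nonneg b v; positivity
  rw [aw, dotProduct_smul, dotProduct_add, dotProduct_smul, dotProduct_smul,
    star_dot_self]
  simp only [smul_eq_mul]
  rw [← Complex.ofReal_inv, Complex.re_ofReal_mul, Complex.add_re, ← Complex.ofReal_mul,
    Complex.ofReal_re, Complex.mul_re, dot_ov hb]
  simp only [Complex.re_ofNat, Complex.im_ofNat, mul_zero, zero_mul, sub_zero, add_zero]
  field_simp

lemma aw_dot {b : C3} (hb : b ≠ 0) {σ : ℝ} (hσ : σ ^ 2 = 1) (v : C3) :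
    star (aw σ b v) ⬝ᵥ aw σ b v = ((nn b : ℝ) : ℂ)⁻¹ := by
  have h := (nn_pos hb).ne'
  have h' : (nn b : ℂ) ≠ 0 := by exact_mod_cast h
  have h2 : 1 + ro b v ≠ 0 := by have := ro_nonneg b v; positivity
  have h2' : (1 : ℂ) + ro b v ≠ 0 := by exact_mod_cast h2
  have hσ' : (σ : ℂ) ^ 2 = 1 := by exact_mod_cast hσ
  have hr : (ro b v : ℂ) = nn (ov b v) * nn b := by rw [ro]; push_cast; rfl
  rw [aw]
  simp only [star_smul, star_add, smul_dotProduct, dotProduct_smul, add_dotProduct,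
    dotProduct_add, dot_ov' hb, star_dot_self, smul_eq_mul, Complex.star_def,
    Complex.conj_ofReal, map_inv₀, map_ofNat]
  push_cast
  have e : (nn (ov b v) : ℂ) = ro b v / nn b := by
    rw [hr]; field_simp
  rw [e]
  field_simp
  linear_combination ((1 : ℂ) - ro b v) ^ 2 * hσ'

/-- general form of the points of `M⁹`. -/
lemma mem_of_form {a b : C3} (hb : b ≠ 0) (h1 : star a ⬝ᵥ a = ((nn b : ℝ) : ℂ)⁻¹) :
    Matrix.vecMulVec a (star b) ∈ M9 := by
  have h := (nn_pos hb).ne'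
  have h' : (nn b : ℂ) ≠ 0 := by exact_mod_cast h
  have hH : (Matrix.vecMulVec a (star b))ᴴ = Matrix.vecMulVec b (star a) := by
    rw [Matrix.conjTranspose_vecMulVec, star_star]
  refine ⟨?_, ?_⟩
  · rw [hH, Matrix.vecMulVec_mul_vecMulVec, Matrix.vecMulVec_smul, Matrix.smul_mul,
      Matrix.vecMulVec_mul_vecMulVec, Matrix.vecMulVec_smul,
      h1, star_dot_self, smul_smul, mul_inv_cancel₀ h', one_smul]
  · rw [hH, Matrix.vecMulVec_mul_vecMulVec, h1, Matrix.vecMulVec_smul, Matrix.trace_smul,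
      Matrix.trace_vecMulVec, dotProduct_comm, star_dot_self, smul_eq_mul, inv_mul_cancel₀ h']

theorem Ps_mem {b : C3} (hb : b ≠ 0) {σ : ℝ} (hσ : σ ^ 2 = 1) (v : C3) : Ps σ b v ∈ M9 :=
  mem_of_form hb (aw_dot hb hσ v)

lemma Ps_sq {b : C3} (hb : b ≠ 0) {σ : ℝ} (hσ : σ ^ 2 = 1) (v : C3) (i : Fin 3) :
    ((Ps σ b v)ᴴ * Ps σ b v) i i = ((‖b i‖ ^ 2 / nn b : ℝ) : ℂ) :=
  form_sq (aw_dot hb hσ v) i

lemma Ps_tr {b : C3} (hb : b ≠ 0) (σ : ℝ) (v : C3) :
    (Ps σ b v).trace.re = σ * (1 - ro b v) / (1 + ro b v) := by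
  rw [Ps, Matrix.trace_vecMulVec, dotProduct_comm, re_dot_aw hb]

/-- every point of `M⁹` is of the form `a bᴴ`, with unit vectors. -/
theorem exists_form {Q : Mat} (hQ : Q ∈ M9) : ∃ a b : C3, star a ⬝ᵥ a = 1 ∧ star b ⬝ᵥ b = 1 ∧
    star b ⬝ᵥ a = Q.trace ∧ Q = Matrix.vecMulVec a (star b) := by
  obtain ⟨h1, h2⟩ := hQ
  set B : Mat := Qᴴ * Q with hB
  have hBB : B * B = B := by
    rw [hB]
    calc Qᴴ * Q * (Qᴴ * Q) = Qᴴ * (Q * Qᴴ * Q) := by simp only [Matrix.mul_assoc]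
      _ = Qᴴ * Q := by rw [h1]
  have hBH : Bᴴ = B := by rw [hB, Matrix.conjTranspose_mul, Matrix.conjTranspose_conjTranspose]
  obtain ⟨b, hb, hBb⟩ := T6.exists_fix hBB hBH h2
  have hbB : star b ᵥ* B = star b := by
    have := congrArg star hBb
    rwa [Matrix.star_mulVec, hBH] at this
  have hPP : Matrix.vecMulVec b (star b) * Matrix.vecMulVec b (star b)
      = Matrix.vecMulVec b (star b) := by
    rw [Matrix.vecMulVec_mul_vecMulVec, hb, one_smul]
  have hPH : (Matrix.vecMulVec b (star b))ᴴ = Matrix.vecMulVec b (star b) := by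
    rw [Matrix.conjTranspose_vecMulVec, star_star]
  have hBP : B * Matrix.vecMulVec b (star b) = Matrix.vecMulVec b (star b) := by
    rw [Matrix.mul_vecMulVec, hBb]
  have hPB : Matrix.vecMulVec b (star b) * B = Matrix.vecMulVec b (star b) := by
    rw [Matrix.vecMulVec_mul, hbB]
  have hBeq : B = Matrix.vecMulVec b (star b) := by
    have h4 : (B - Matrix.vecMulVec b (star b))ᴴ * (B - Matrix.vecMulVec b (star b))
        = B - Matrix.vecMulVec b (star b) := by
      rw [Matrix.conjTranspose_sub, hBH, hPH, Matrix.sub_mul, Matrix.mul_sub, Matrix.mul_sub, hBB,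
        hBP, hPB, hPP]
      abel
    have h5 : ((B - Matrix.vecMulVec b (star b))ᴴ * (B - Matrix.vecMulVec b (star b))).trace = 0 := by
      rw [h4, Matrix.trace_sub, h2, Matrix.trace_vecMulVec, dotProduct_comm, hb, sub_self]
    exact sub_eq_zero.mp (Matrix.trace_conjTranspose_mul_self_eq_zero_iff.mp h5)
  have hQ1 : Q = Matrix.vecMulVec (Q *ᵥ b) (star b) := by
    calc Q = Q * B := by rw [hB, ← Matrix.mul_assoc, h1]
      _ = Matrix.vecMulVec (Q *ᵥ b) (star b) := by rw [hBeq, Matrix.mul_vecMulVec]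
  refine ⟨Q *ᵥ b, b, ?_, hb, ?_, hQ1⟩
  · rw [Matrix.star_mulVec, Matrix.dotProduct_mulVec, Matrix.vecMul_vecMul, ← hB, hbB, hb]
  · conv_rhs => rw [hQ1]
    rw [Matrix.trace_vecMulVec, dotProduct_comm]

end Pool.Agent.Helper46.M9
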